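import Mathlib
import Pool.Agent.Helper98.Stubborn.Defs
import Pool.Agent.Helper98.Stubborn.Main

set_option autoImplicit false

namespace Pool.Agent.Results.MP_982b0b_ag.StubbornFace

open Pool.Agent.Helper98.Stubborn

/-- **Q1 has a negative answer.**  For the totally real surface `X ⊆ ℙ⁴` with equations
`x₁² + x₂² = x₀² = x₃² + x₄²`, the cone of nonnegative quadrics has a face whose relative interior
contains both a stubborn quadric and a quadric that is not stubborn. -/
theorem result :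
    ∃ X : TotallyRealVariety 4,
      X.realCone = {x | x 1 ^ 2 + x 2 ^ 2 = x 0 ^ 2 ∧ x 3 ^ 2 + x 4 ^ 2 = x 0 ^ 2} ∧
      ∃ 𝓕 : Set X.Quadrics, X.IsFaceOfCone 𝓕 ∧
        (∃ F ∈ X.relInt 𝓕, X.Stubborn F) ∧ (∃ F ∈ X.relInt 𝓕, ¬ X.Stubborn F) :=
  main

end Pool.Agent.Results.MP_982b0b_ag.StubbornFace
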